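import Pool.Agent.H92.SR.Tim

/-!
# Square roots of numbers chosen at random from pairs: definitions

`sel x y β` takes `y i` if `β i` is true and `x i` otherwise. `vec a` is the vector of `√a` in the
basis of the square roots of the squarefree numbers, without the coordinate of `1`.
-/

set_option autoImplicit false

namespace Pool.Agent.H84.OB

open Pool.Agent.H92.SR

variable {n : ℕ}

/-- one of two numbers for every index -/
def sel (x y : Fin n → ℕ) (β : Fin n → Bool) : Fin n → ℕ := fun i => if β i then y i else x i

/-- the coordinates of the square root of `a`, except the rational one -/
noncomputable def vec (a : ℕ) (d : ℕ) : ℚ := if sf a = d ∧ d ≠ 1 then (rt a : ℚ) else 0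

/-- the difference of the vectors of the two numbers -/
noncomputable def wv (x y : Fin n → ℕ) (i : Fin n) : ℕ → ℚ := fun d => vec (y i) d - vec (x i) d

end Pool.Agent.H84.OB
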