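import Mathlib
import Pool.Agent.H84.OB.Def

/-!
# Averaging over a product of pools by pairs (`sel`)

For every `i` let `g i` be a cyclic permutation of the pool `A i`; for fixed `β` the map `a ↦ sel a (g a) β` permutes the
product of the pools.
-/

set_option autoImplicit false

namespace Pool.Agent.H84.OB

open Finset

theorem avg_sel {n : ℕ} (A : Fin n → Finset ℕ) (hA : ∀ i, 2 ≤ (A i).card) (f : (Fin n → ℕ) → ℕ)
    (B : ℕ)
    (h : ∀ x y : Fin n → ℕ, (∀ i, x i ∈ A i) → (∀ i, y i ∈ A i) → (∀ i, x i ≠ y i) →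
      ∑ β : Fin n → Bool, f (sel x y β) ≤ 2 ^ n * B) :
    ∑ a ∈ Fintype.piFinset A, f a ≤ (∏ i, (A i).card) * B := by
  classical
  have hg : ∀ i, ∃ g : Equiv.Perm ℕ, g.IsCycleOn (A i : Set ℕ) := fun i => by
    obtain ⟨g, h1, -⟩ := Set.Countable.exists_cycleOn (s := (A i : Set ℕ)) (Set.to_countable _)
    exact ⟨g, h1⟩
  choose g hg1 using hg
  let e : (Fin n → Bool) → (Fin n → ℕ) ≃ (Fin n → ℕ) := fun β =>
    Equiv.piCongrRight fun i => if β i then g i else Equiv.refl ℕ
  have he : ∀ β a, e β a = sel a (fun i => g i (a i)) β := by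
    intro β a
    funext i
    show (if β i then g i else Equiv.refl ℕ) (a i) = if β i then g i (a i) else a i
    split <;> rfl
  have hmem : ∀ β a, a ∈ Fintype.piFinset A ↔ e β a ∈ Fintype.piFinset A := by
    intro β a
    rw [Fintype.mem_piFinset, Fintype.mem_piFinset]
    refine forall_congr' fun i => ?_
    rw [he]
    unfold sel
    split
    · exact ((hg1 i).apply_mem_iff).symm
    · exact Iff.rfl
  have h1 : ∀ β, ∑ a ∈ Fintype.piFinset A, f (sel a (fun i => g i (a i)) β) =
      ∑ a ∈ Fintype.piFinset A, f a := by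
    intro β
    refine Finset.sum_equiv (e β) (hmem β) fun a _ => ?_
    rw [he]
  have h2 : 2 ^ n * ∑ a ∈ Fintype.piFinset A, f a ≤
      2 ^ n * ((∏ i, (A i).card) * B) := by
    calc 2 ^ n * ∑ a ∈ Fintype.piFinset A, f a
        = ∑ β : Fin n → Bool, ∑ a ∈ Fintype.piFinset A, f a := by
          rw [Finset.sum_const, Finset.card_univ, Fintype.card_fun, Fintype.card_bool,
            Fintype.card_fin, smul_eq_mul]
      _ = ∑ β : Fin n → Bool, ∑ a ∈ Fintype.piFinset A, f (sel a (fun i => g i (a i)) β) :=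
          Finset.sum_congr rfl fun β _ => (h1 β).symm
      _ = ∑ a ∈ Fintype.piFinset A, ∑ β : Fin n → Bool, f (sel a (fun i => g i (a i)) β) :=
          Finset.sum_comm
      _ ≤ ∑ a ∈ Fintype.piFinset A, 2 ^ n * B := by
          refine Finset.sum_le_sum fun a ha => ?_
          rw [Fintype.mem_piFinset] at ha
          refine h a (fun i => g i (a i)) ha (fun i => ((hg1 i).apply_mem_iff).2 (ha i)) fun i => ?_
          exact ((hg1 i).apply_ne (Finset.one_lt_card_iff_nontrivial.1 (hA i)) (ha i)).symm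
      _ = 2 ^ n * ((∏ i, (A i).card) * B) := by
          rw [Finset.sum_const, Fintype.card_piFinset, smul_eq_mul]
          ring
  exact Nat.le_of_mul_le_mul_left h2 (by positivity)

end Pool.Agent.H84.OB
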