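import Pool.Agent.H92.SR.Tim

/-!
# Module TM: the running time in terms of the number of square classes

`lspD`, `timD`: `lsp1` and `tim` of H92/SR with a given set `D` of square classes. `cls_eq0`: `cls_eq` without positivity of
the other radicands. The private lemmas are copies of those of H92/SR/Lsp and H92/SR/Cls.
-/

set_option autoImplicit false

namespace Pool.Agent.H84.OB

open Pool.Agent.H92.SR Pool.Agent.H92.SR.Tr

/-- the coefficient of a class -/
private noncomputable def cl (L : List ℕ) (d : ℕ) : ℕ :=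
  (L.map fun a => if sf a = d then rt a else 0).sum

private theorem cl_sum (L : List ℕ) {D : Finset ℕ} (hD : ∀ a ∈ L, sf a ∈ D) :
    (L.map fun a : ℕ => √(a : ℝ)).sum = ∑ d ∈ D, (cl L d : ℝ) * √(d : ℝ) := by
  induction L with
  | nil => simp [cl]
  | cons a L ih =>
    have h1 := ih fun x hx => hD x (List.mem_cons_of_mem _ hx)
    simp only [List.map_cons, List.sum_cons]
    rw [h1]
    have h2 : ∀ d, (cl (a :: L) d : ℝ) * √(d : ℝ) =
        (if sf a = d then (rt a : ℝ) * √(sf a : ℝ) else 0) + (cl L d : ℝ) * √(d : ℝ) := by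
      intro d
      unfold cl
      simp only [List.map_cons, List.sum_cons]
      by_cases h : sf a = d
      · rw [if_pos h, if_pos h]
        push_cast
        rw [h]
        ring
      · rw [if_neg h, if_neg h]
        push_cast
        ring
    simp only [h2]
    rw [Finset.sum_add_distrib, Finset.sum_ite_eq, if_pos (hD a List.mem_cons_self), ← sqrt_cls]

private theorem cl_zero {L : List ℕ} {d : ℕ} (h : cl L d = 0) {a : ℕ} (ha : a ∈ L)
    (hs : sf a = d) : a = 0 := by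
  unfold cl at h
  rw [List.sum_eq_zero_iff] at h
  have h1 := h (rt a) (by
    rw [List.mem_map]
    exact ⟨a, ha, by rw [if_pos hs]⟩)
  have h2 := (sf_spec a).1
  rw [h1] at h2
  simpa using h2.symm

/-- the coefficients of the instance -/
private noncomputable def ck (L : List ℕ) (k d : ℕ) : ℤ := (cl L d : ℤ) - (if d = 1 then k else 0)

private theorem ck_sum (L : List ℕ) (k : ℕ) {D : Finset ℕ} (hD : ∀ a ∈ L, sf a ∈ D)
    (h1 : 1 ∈ D) : EE L k = ∑ d ∈ D, (ck L k d : ℝ) * √(d : ℝ) := by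
  unfold EE
  rw [cl_sum L hD]
  have h2 : ∀ d, (ck L k d : ℝ) * √(d : ℝ) =
      (cl L d : ℝ) * √(d : ℝ) - (if d = 1 then (k : ℝ) else 0) := by
    intro d
    unfold ck
    by_cases h : d = 1
    · rw [if_pos h, if_pos h]
      push_cast
      rw [h]
      simp
    · rw [if_neg h, if_neg h]
      push_cast
      ring
  simp only [h2]
  rw [Finset.sum_sub_distrib, Finset.sum_ite_eq', if_pos h1]

private theorem ck_ne {L : List ℕ} (k : ℕ) {D : Finset ℕ} (hD : ∀ a ∈ L, sf a ∈ D)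
    (hsq : ¬ ∀ a ∈ L, IsSquare a) : ∃ d ∈ D, ck L k d ≠ 0 := by
  by_contra hno
  push Not at hno
  apply hsq
  intro a ha
  have h1 := hno (sf a) (hD a ha)
  by_cases h : sf a = 1
  · have h2 := (sf_spec a).1
    rw [h, mul_one] at h2
    exact ⟨rt a, by rw [← pow_two, h2]⟩
  · unfold ck at h1
    rw [if_neg h] at h1
    have h2 : cl L (sf a) = 0 := by omega
    have h3 := cl_zero h2 ha rfl
    rw [h3]
    exact ⟨0, rfl⟩

private theorem ck_abs (L : List ℕ) (k : ℕ) {D : Finset ℕ} (hD : ∀ a ∈ L, sf a ∈ D)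
    (h1 : 1 ∈ D) : ∑ d ∈ D, |(ck L k d : ℝ)| * √(d : ℝ) ≤
      (L.map fun a : ℕ => √(a : ℝ)).sum + k := by
  have h2 : ∀ d, |(ck L k d : ℝ)| * √(d : ℝ) ≤
      (cl L d : ℝ) * √(d : ℝ) + (if d = 1 then (k : ℝ) else 0) := by
    intro d
    unfold ck
    have e1 : (0 : ℝ) ≤ cl L d := Nat.cast_nonneg _
    have e2 : (0 : ℝ) ≤ k := Nat.cast_nonneg _
    by_cases h : d = 1
    · rw [if_pos h, if_pos h]
      push_cast
      rw [h]
      simp only [Nat.cast_one, Real.sqrt_one, mul_one]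
      rw [h] at e1
      rw [abs_le]
      constructor <;> linarith
    · rw [if_neg h, if_neg h]
      push_cast
      rw [sub_zero, add_zero, abs_of_nonneg e1]
  refine (Finset.sum_le_sum fun d _ => h2 d).trans (le_of_eq ?_)
  rw [Finset.sum_add_distrib, Finset.sum_ite_eq', if_pos h1, cl_sum L hD]

theorem lspD {L : List ℕ} {k : ℕ} {D : Finset ℕ} (hD : ∀ a ∈ L, sf a ∈ D) (h1 : 1 ∈ D)
    (hDs : ∀ d ∈ D, Squarefree d) (hsq : ¬ ∀ a ∈ L, IsSquare a) {S : ℝ} (hS1 : 1 ≤ S)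
    (hS : (L.map fun a : ℕ => √(a : ℝ)).sum + k ≤ S) :
    1 ≤ |EE L k| * S ^ (2 ^ D.card - 1) := by
  have h2 := sep1 hDs (ck_ne k hD hsq) hS1 ((ck_abs L k hD h1).trans hS)
  rwa [← ck_sum L k hD h1] at h2

open Classical in
theorem timD : ∃ (c : Prog) (T : List ℕ → ℕ → ℕ) (q : Polynomial ℕ) (Λ : ℕ), 1 ≤ Λ ∧
    (∀ L k, Eval c (encI L k) (bit (decide (EE L k ≤ 0))) (T L k)) ∧
    (∀ L k b m, 1 ≤ |EE L k| * 2 ^ (1 + b * 4 ^ m) → T L k ≤ q.eval (bsz L k + b) * Λ ^ m) ∧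
    ∀ (L : List ℕ) (k b : ℕ) (D : Finset ℕ), (∀ a ∈ L, sf a ∈ D) → 1 ∈ D → (∀ d ∈ D, Squarefree d) →
      (L.map fun a : ℕ => √(a : ℝ)).sum + (k : ℝ) ≤ 2 ^ b →
      T L k ≤ q.eval (bsz L k + b) * Λ ^ D.card := by
  obtain ⟨c, T, q, hE, hT1, hT2⟩ := tim0
  have hΛ : 1 ≤ 4 ^ q.natDegree := Nat.one_le_pow _ _ (by norm_num)
  have hev : ∀ x : ℕ, (q.comp (Polynomial.X + 1)).eval x = q.eval (x + 1) := by
    intro x
    simp [Polynomial.eval_comp]
  have hkey : ∀ (L : List ℕ) (k b m x : ℕ), 1 ≤ |EE L k| * 2 ^ x → x ≤ 1 + b * 4 ^ m →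
      T L k ≤ (q.comp (Polynomial.X + 1)).eval (bsz L k + b) * (4 ^ q.natDegree) ^ m := by
    intro L k b m x hx hxb
    have h1 := hT1 L k x hx
    have h4 : 1 ≤ 4 ^ m := Nat.one_le_pow _ _ (by norm_num)
    have h2 : bsz L k + x ≤ (bsz L k + b + 1) * 4 ^ m := by
      have h5 : bsz L k * 1 ≤ bsz L k * 4 ^ m := Nat.mul_le_mul_left _ h4
      have h6 : (bsz L k + b + 1) * 4 ^ m = bsz L k * 4 ^ m + b * 4 ^ m + 4 ^ m := by ring
      omega
    rw [hev]
    refine (h1.trans (poly_mono q h2)).trans ?_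
    refine (poly_scale q _ h4).trans (le_of_eq ?_)
    rw [← pow_mul, ← pow_mul, mul_comm m]
  have hsq : ∀ (L : List ℕ) (k b r : ℕ), (∀ a ∈ L, IsSquare a) →
      T L k ≤ (q.comp (Polynomial.X + 1)).eval (bsz L k + b) * (4 ^ q.natDegree) ^ r := by
    intro L k b r h
    rw [hev]
    refine (hT2 L k h).trans ((poly_mono q (by omega)).trans (Nat.le_mul_of_pos_right _ ?_))
    exact pow_pos hΛ r
  have hcase : ∀ (L : List ℕ) (k b r : ℕ), 1 ≤ |EE L k| * (2 ^ b) ^ (2 ^ r - 1) →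
      T L k ≤ (q.comp (Polynomial.X + 1)).eval (bsz L k + b) * (4 ^ q.natDegree) ^ r := by
    intro L k b r h
    rw [← pow_mul] at h
    refine hkey L k b r _ h ?_
    have h1 : 2 ^ r - 1 ≤ 4 ^ r := by
      exact (Nat.sub_le _ _).trans (Nat.pow_le_pow_left (by norm_num) r)
    have := Nat.mul_le_mul_left b h1
    omega
  refine ⟨c, T, q.comp (Polynomial.X + 1), 4 ^ q.natDegree, hΛ, hE, ?_, ?_⟩
  · intro L k b m h
    exact hkey L k b m _ h le_rfl
  · intro L k b D hD h1 hDs h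
    by_cases h2 : ∀ a ∈ L, IsSquare a
    · exact hsq L k b _ h2
    · exact hcase L k b _ (lspD hD h1 hDs h2 (one_le_pow₀ (by norm_num)) h)

/-- the coefficient of a class -/
private noncomputable def cf {J : Type} [Fintype J] (a : J → ℕ) (d : ℕ) : ℕ :=
  ∑ j ∈ Finset.univ.filter (fun j => sf (a j) = d), rt (a j)

private theorem cls_diff {J : Type} [Fintype J] (a a' : J → ℕ) {D : Finset ℕ}
    (hD : ∀ j, sf (a j) ∈ D) (hD' : ∀ j, sf (a' j) ∈ D) :
    ∑ j, √(a j : ℝ) - ∑ j, √(a' j : ℝ) =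
      ∑ d ∈ D, (((cf a d : ℤ) - (cf a' d : ℤ) : ℤ) : ℝ) * √(d : ℝ) := by
  rw [cls_sum a hD, cls_sum a' hD', ← Finset.sum_sub_distrib]
  refine Finset.sum_congr rfl fun d _ => ?_
  unfold cf
  push_cast
  ring

private theorem rt_pos {a : ℕ} (ha : 1 ≤ a) : 1 ≤ rt a := by
  rcases Nat.eq_zero_or_pos (rt a) with h | h
  · have := (sf_spec a).1
    rw [h] at this
    simp at this
    omega
  · exact h

theorem cls_eq0 {J : Type} [Fintype J] {a a' : J → ℕ} (h : ∑ j, √(a j : ℝ) = ∑ j, √(a' j : ℝ))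
    (j : J) (hj : 1 ≤ a j) : ∃ i, sf (a j) = sf (a' i) := by
  classical
  set D : Finset ℕ := Finset.univ.image (fun j => sf (a j)) ∪
    Finset.univ.image (fun j => sf (a' j)) with hDdef
  have hD1 : ∀ j, sf (a j) ∈ D := fun j =>
    Finset.mem_union_left _ (Finset.mem_image_of_mem _ (Finset.mem_univ j))
  have hD2 : ∀ j, sf (a' j) ∈ D := fun j =>
    Finset.mem_union_right _ (Finset.mem_image_of_mem _ (Finset.mem_univ j))
  have hDs : ∀ d ∈ D, Squarefree d := by
    intro d hd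
    rw [hDdef, Finset.mem_union, Finset.mem_image, Finset.mem_image] at hd
    rcases hd with ⟨i, _, rfl⟩ | ⟨i, _, rfl⟩
    · exact (sf_spec _).2
    · exact (sf_spec _).2
  have h1 := cls_diff a a' hD1 hD2
  rw [h, sub_self] at h1
  have h2 := ind hDs _ h1.symm (sf (a j)) (hD1 j)
  have h3 : cf a (sf (a j)) = cf a' (sf (a j)) := by
    have h4 : (cf a (sf (a j)) : ℤ) - (cf a' (sf (a j)) : ℤ) = 0 := h2
    omega
  have h4 : 1 ≤ cf a (sf (a j)) := by
    unfold cf
    refine (rt_pos hj).trans ?_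
    exact Finset.single_le_sum (f := fun i => rt (a i)) (fun i _ => Nat.zero_le _)
      (Finset.mem_filter.2 ⟨Finset.mem_univ j, rfl⟩)
  rw [h3] at h4
  unfold cf at h4
  by_contra hno
  push Not at hno
  rw [Finset.sum_eq_zero] at h4
  · omega
  · intro i hi
    exact absurd (Finset.mem_filter.1 hi).2.symm (hno i)

end Pool.Agent.H84.OB
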